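import Pool.Agent.H33.HH.TC

/-! Row IDS of hha_modules (MP_347b49_nt): smooth sums over the ideals. -/

set_option autoImplicit false

open NumberField Complex Filter Topology MeasureTheory
open scoped ContDiff nonZeroDivisors

namespace Pool.Agent.H95.HH

open Pool.Agent.H33.HH Pool.Agent.H28.RC Pool.Agent.H37.CV

noncomputable section

theorem fin_sep {α : Type} (e : α → ℂ) (δ R : ℝ) (hδ : 0 < δ)
    (h : ∀ x y, x ≠ y → δ ≤ ‖e x - e y‖) : {x | ‖e x‖ ≤ R}.Finite := by
  obtain ⟨t, ht, hcov⟩ := Metric.totallyBounded_iff.1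
    (isCompact_closedBall (0 : ℂ) R).totallyBounded (δ / 2) (by positivity)
  refine (ht.biUnion (t := fun y => {x | e x ∈ Metric.ball y (δ / 2)}) ?_).subset ?_
  · intro y _
    refine Set.Subsingleton.finite ?_
    intro a ha b hb
    by_contra hab
    have h1 := h a b hab
    have h2 : dist (e a) y < δ / 2 := ha
    have h3 : dist (e b) y < δ / 2 := hb
    have h4 : dist (e a) (e b) < δ := by
      have := dist_triangle_right (e a) (e b) y
      linarith
    rw [dist_eq_norm] at h4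
    linarith
  · intro x hx
    have : e x ∈ Metric.closedBall (0 : ℂ) R := by
      rw [mem_closedBall_zero_iff]; exact hx
    have h1 := hcov this
    simp only [Set.mem_iUnion, exists_prop] at h1 ⊢
    exact h1

theorem int_rad (f : ℝ → ℝ) (b : ℝ) (hb : 0 < b) :
    ∫ z : ℂ, f (b * ‖z‖ ^ 2) = Real.pi / b * ∫ u in Set.Ioi (0 : ℝ), f u := by
  have h1 := integral_fun_norm_addHaar (volume : Measure ℂ) (fun r : ℝ => f (b * r ^ 2))
  rw [h1, Complex.finrank_real_complex]
  have hv : (volume : Measure ℂ).real (Metric.ball 0 1) = Real.pi := by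
    rw [Measure.real, Complex.volume_ball]
    simp
  rw [hv]
  have h2 := integral_comp_rpow_Ioi (fun u : ℝ => f (b * u)) (p := 2) (by norm_num)
  have h3 : ∫ x in Set.Ioi (0 : ℝ), (|(2 : ℝ)| * x ^ ((2 : ℝ) - 1)) • f (b * x ^ (2 : ℝ)) =
      2 * ∫ y in Set.Ioi (0 : ℝ), y ^ (2 - 1) • f (b * y ^ 2) := by
    rw [← integral_const_mul]
    refine setIntegral_congr_fun measurableSet_Ioi fun x hx => ?_
    simp only [smul_eq_mul]
    rw [show ((2 : ℝ) - 1) = 1 by norm_num, Real.rpow_one, Real.rpow_two]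
    norm_num
    ring
  rw [h3] at h2
  have h4 := integral_comp_mul_left_Ioi f 0 hb
  rw [mul_zero] at h4
  rw [h4, smul_eq_mul] at h2
  simp only [nsmul_eq_mul, smul_eq_mul] at h2 ⊢
  have h5 : ((2 : ℕ) : ℝ) * (Real.pi * ∫ y in Set.Ioi (0 : ℝ), y ^ (2 - 1) * f (b * y ^ 2)) =
      Real.pi * (2 * ∫ y in Set.Ioi (0 : ℝ), y ^ (2 - 1) * f (b * y ^ 2)) := by
    push_cast; ring
  rw [h5, h2]
  field_simp

theorem pf_IDS (h1 : T_LAT) (h2 : T_IDL) (h3 : T_DRV) (h4 : T_NRM) : T_IDS := by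
  intro K _ _ _ k b hk hb
  obtain ⟨C2, hC2, hL⟩ := h1 K k hk
  obtain ⟨J, hJ0, hJ⟩ := h2 K
  obtain ⟨C1, hC1, hD⟩ := h3 k b hb
  obtain ⟨-, hwu, -, -, -, hNRM, -⟩ := h4 K
  have hhc : 0 ≤ hc K := Nat.cast_nonneg _
  have hsd : 0 < sd K := Real.sqrt_pos.2 (abs_pos.2 (by exact_mod_cast discr_ne_zero K))
  have hrh : 0 ≤ rh K := by
    unfold rh
    positivity
  set e : ℝ := 1 - (k : ℝ) / 2 with he
  have he0 : e ≤ 0 := by
    have : (2 : ℝ) ≤ k := by exact_mod_cast hk
    rw [he]; linarith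
  have hbe : 0 < b ^ e := Real.rpow_pos_of_pos hb _
  have hbe' : 0 < (1 / b) ^ e := Real.rpow_pos_of_pos (by positivity) _
  refine ⟨hc K / wu K * (C2 * C1 * b ^ e) + (rh K + hc K / wu K) * ((1 / b) ^ e)⁻¹,
    by positivity, ?_⟩
  intro f M T hf hfb hM hT
  have hT0 : 0 < T := by linarith
  have hM0 : |f 0| ≤ M := by
    have := hM 0 (Nat.zero_le _) 0 ⟨le_rfl, hb.le⟩
    simpa using this
  have hMn : 0 ≤ M := (abs_nonneg _).trans hM0
  have hTe : 0 < T ^ e := Real.rpow_pos_of_pos hT0 _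
  rcases lt_or_ge (b * T) 1 with hbT | hbT
  · -- the sum is empty
    have hz : ∀ l : NI K, f (nm l.1 / T) = 0 := by
      intro l
      refine hfb _ ?_
      have hl : (1 : ℝ) ≤ nm l.1 := by
        unfold nm
        have : Ideal.absNorm l.1 ≠ 0 := by
          rw [Ne, Ideal.absNorm_eq_zero_iff]
          exact l.2
        exact_mod_cast Nat.one_le_iff_ne_zero.2 this
      rw [le_div_iff₀ hT0]
      linarith
    simp only [hz, tsum_zero]
    have hI : |∫ u in Set.Ioi (0 : ℝ), f u| ≤ b * M := by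
      have h5 : ∫ u in Set.Ioi (0 : ℝ), f u = ∫ u in Set.Ioc (0 : ℝ) b, f u := by
        refine setIntegral_eq_of_subset_of_forall_sdiff_eq_zero measurableSet_Ioi
          (fun x hx => hx.1) fun x hx => ?_
        refine hfb x ?_
        by_contra hxb
        exact hx.2 ⟨hx.1, (not_le.1 hxb).le⟩
      rw [h5]
      have h6 := norm_setIntegral_le_of_norm_le_const (μ := volume) (f := f)
        (s := Set.Ioc (0 : ℝ) b) (C := M) (by simp) (fun x hx => by
          have := hM 0 (Nat.zero_le _) x ⟨hx.1.le, hx.2⟩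
          simpa using this)
      rw [Real.norm_eq_abs] at h6
      refine h6.trans ?_
      rw [Measure.real, Real.volume_Ioc]
      rw [ENNReal.toReal_ofReal (by linarith)]
      linarith
    have hTb : T ≤ 1 / b := by
      rw [le_div_iff₀ hb]; linarith
    have h7 : (1 / b) ^ e ≤ T ^ e := Real.rpow_le_rpow_of_nonpos hT0 hTb he0
    have h8 : |0 - rh K * T * (∫ u in Set.Ioi (0 : ℝ), f u) + hc K / wu K * f 0| ≤
        (rh K + hc K / wu K) * M := by
      have h9 : |rh K * T * (∫ u in Set.Ioi (0 : ℝ), f u)| ≤ rh K * M := by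
        rw [abs_mul, abs_of_nonneg (mul_nonneg hrh hT0.le)]
        calc rh K * T * |∫ u in Set.Ioi (0 : ℝ), f u| ≤ rh K * T * (b * M) :=
              mul_le_mul_of_nonneg_left hI (mul_nonneg hrh hT0.le)
          _ = rh K * ((b * T) * M) := by ring
          _ ≤ rh K * (1 * M) := by
              refine mul_le_mul_of_nonneg_left ?_ hrh
              exact mul_le_mul_of_nonneg_right hbT.le hMn
          _ = rh K * M := by ring
      have h10 : |hc K / wu K * f 0| ≤ hc K / wu K * M := by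
        rw [abs_mul, abs_of_nonneg (by positivity : (0 : ℝ) ≤ hc K / wu K)]
        exact mul_le_mul_of_nonneg_left hM0 (by positivity)
      rw [zero_sub]
      calc |-(rh K * T * (∫ u in Set.Ioi (0 : ℝ), f u)) + hc K / wu K * f 0|
          ≤ |-(rh K * T * (∫ u in Set.Ioi (0 : ℝ), f u))| + |hc K / wu K * f 0| := abs_add_le _ _
        _ ≤ rh K * M + hc K / wu K * M := by
            rw [abs_neg]; exact add_le_add h9 h10
        _ = _ := by ring
    refine h8.trans ?_
    have h11 : (rh K + hc K / wu K) * M ≤ (rh K + hc K / wu K) * ((1 / b) ^ e)⁻¹ * M * T ^ e := by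
      have : (1 : ℝ) ≤ ((1 / b) ^ e)⁻¹ * T ^ e := by
        rw [inv_mul_eq_div, one_le_div hbe']
        exact h7
      calc (rh K + hc K / wu K) * M = (rh K + hc K / wu K) * M * 1 := by ring
        _ ≤ (rh K + hc K / wu K) * M * (((1 / b) ^ e)⁻¹ * T ^ e) :=
            mul_le_mul_of_nonneg_left this (by positivity)
        _ = _ := by ring
    refine h11.trans ?_
    have : 0 ≤ hc K / wu K * (C2 * C1 * b ^ e) := by positivity
    have h12 : 0 ≤ hc K / wu K * (C2 * C1 * b ^ e) * M * T ^ e := by positivity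
    nlinarith [h12]
  · -- the main case
    obtain ⟨hF, hFd⟩ := hD f M hf hM hfb
    have hsum := hJ (fun u => f (u / T)) ⟨b * T, fun u hu => hfb _ (by
      rw [le_div_iff₀ hT0]; exact hu)⟩
    rw [hsum]
    -- each class
    have hcls : ∀ i, |(∑' x : {x : K // x ∈ J i ∧ x ≠ 0},
        f (‖em K x.1‖ ^ 2 / ((FractionalIdeal.absNorm (J i) : ℚ) : ℝ) / T)) -
        (2 * Real.pi * T / sd K * (∫ u in Set.Ioi (0 : ℝ), f u) - f 0)| ≤
        C2 * C1 * b ^ e * M * T ^ e := by
      intro i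
      set N : ℝ := ((FractionalIdeal.absNorm (J i) : ℚ) : ℝ) with hN
      have hNpos : 0 < N := by
        rw [hN]
        have h5 : (0 : ℚ) < FractionalIdeal.absNorm (J i) :=
          lt_of_le_of_ne (FractionalIdeal.absNorm_nonneg _)
            (Ne.symm (mt FractionalIdeal.absNorm_eq_zero_iff.1 (hJ0 i)))
        exact_mod_cast h5
      set R : ℝ := Real.sqrt (b * T * N) with hR
      have hbTN : 0 < b * T * N := by positivity
      have hRpos : 0 < R := Real.sqrt_pos.2 hbTN
      have hR2 : R ^ 2 = b * T * N := Real.sq_sqrt hbTN.le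
      have hNR : N ≤ R ^ 2 := by
        rw [hR2]
        nlinarith
      have hl := hL (J i) 0 R (C1 * M) (fun z => f (b * ‖z‖ ^ 2)) (hJ0 i) hRpos hNR hF
        (fun z hz => hfb _ (by
          have : (1 : ℝ) ≤ ‖z‖ ^ 2 := by nlinarith [norm_nonneg z]
          nlinarith)) hFd
      rw [← hN] at hl
      have hq : R ^ 2 / N = b * T := by rw [hR2]; field_simp
      rw [hq, int_rad f b hb, Real.mul_rpow hb.le hT0.le] at hl
      -- the values
      have hval : ∀ x : K, f (b * ‖(em K x - 0) / (R : ℂ)‖ ^ 2) = f (‖em K x‖ ^ 2 / N / T) := by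
        intro x
        congr 1
        rw [sub_zero, norm_div, Complex.norm_real, Real.norm_eq_abs, abs_of_pos hRpos, div_pow,
          hR2]
        field_simp
      -- the finite set
      have hfin : {x : {x : K // x ∈ J i} | ‖em K x.1‖ ≤ R}.Finite := by
        refine fin_sep (fun x : {x : K // x ∈ J i} => em K x.1) (Real.sqrt N) R
          (Real.sqrt_pos.2 hNpos) ?_
        intro x y hxy
        have hxy' : x.1 - y.1 ≠ 0 := fun h => hxy (Subtype.ext (sub_eq_zero.1 h))
        have hmem : x.1 - y.1 ∈ J i := by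
          have := (J i : Submodule (𝓞 K) K).sub_mem x.2 y.2
          exact this
        have h6 := hNRM (x.1 - y.1) (J i) hmem hxy'
        rw [map_sub] at h6
        exact Real.sqrt_le_left (norm_nonneg _) |>.2 h6 |> fun h => h
      have hzero : (0 : K) ∈ J i := (J i : Submodule (𝓞 K) K).zero_mem
      classical
      let S : Finset K := hfin.toFinset.map ⟨Subtype.val, Subtype.val_injective⟩
      have hS : ∀ x, x ∈ S ↔ x ∈ J i ∧ ‖em K x‖ ≤ R := by
        intro x
        simp only [S, Finset.mem_map, Set.Finite.mem_toFinset, Set.mem_ofPred_eq,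
          Function.Embedding.coeFn_mk, Subtype.exists, exists_and_left, exists_prop,
          exists_eq_right_right]
        tauto
      have hsupp : ∀ x : K, x ∈ J i → x ∉ S → f (‖em K x‖ ^ 2 / N / T) = 0 := by
        intro x hx hxS
        have h7 : R < ‖em K x‖ := by
          by_contra h8
          exact hxS ((hS x).2 ⟨hx, not_lt.1 h8⟩)
        refine hfb _ ?_
        rw [le_div_iff₀ hT0, le_div_iff₀ hNpos]
        have h9 : R ^ 2 ≤ ‖em K x‖ ^ 2 := by
          exact pow_le_pow_left₀ hRpos.le h7.le 2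
        rw [hR2] at h9
        exact h9
      have hA : (∑' x : {x : K // x ∈ J i}, f (b * ‖(em K x.1 - 0) / (R : ℂ)‖ ^ 2)) =
          ∑ x ∈ S, f (‖em K x‖ ^ 2 / N / T) := by
        have h10 := tsum_subtype {x : K | x ∈ J i} (fun x => f (‖em K x‖ ^ 2 / N / T))
        have h11 : (∑' x : {x : K // x ∈ J i}, f (b * ‖(em K x.1 - 0) / (R : ℂ)‖ ^ 2)) =
            ∑' x : ({x : K | x ∈ J i} : Set K), f (‖em K (x : K)‖ ^ 2 / N / T) :=
          tsum_congr fun x => hval x.1
        rw [h11, h10, tsum_eq_sum (s := S)]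
        · refine Finset.sum_congr rfl fun x hx => ?_
          rw [Set.indicator_of_mem]
          exact ((hS x).1 hx).1
        · intro x hx
          by_cases hxJ : x ∈ J i
          · rw [Set.indicator_of_mem (show x ∈ {x : K | x ∈ J i} from hxJ)]
            exact hsupp x hxJ hx
          · rw [Set.indicator_of_notMem]
            exact hxJ
      have hB : (∑' x : {x : K // x ∈ J i ∧ x ≠ 0}, f (‖em K x.1‖ ^ 2 / N / T)) =
          ∑ x ∈ S.erase 0, f (‖em K x‖ ^ 2 / N / T) := by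
        have h10 := tsum_subtype {x : K | x ∈ J i ∧ x ≠ 0} (fun x => f (‖em K x‖ ^ 2 / N / T))
        have h11 : (∑' x : {x : K // x ∈ J i ∧ x ≠ 0}, f (‖em K x.1‖ ^ 2 / N / T)) =
            ∑' x : ({x : K | x ∈ J i ∧ x ≠ 0} : Set K), f (‖em K (x : K)‖ ^ 2 / N / T) := rfl
        rw [h11, h10, tsum_eq_sum (s := S.erase 0)]
        · refine Finset.sum_congr rfl fun x hx => ?_
          rw [Finset.mem_erase, hS] at hx
          rw [Set.indicator_of_mem]
          exact ⟨hx.2.1, hx.1⟩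
        · intro x hx
          by_cases hxJ : x ∈ J i ∧ x ≠ 0
          · rw [Set.indicator_of_mem (show x ∈ {x : K | x ∈ J i ∧ x ≠ 0} from hxJ)]
            refine hsupp x hxJ.1 fun hxS => hx (Finset.mem_erase.2 ⟨hxJ.2, hxS⟩)
          · rw [Set.indicator_of_notMem]
            exact hxJ
      have h0S : (0 : K) ∈ S := by
        rw [hS]
        refine ⟨hzero, ?_⟩
        rw [map_zero, norm_zero]
        exact hRpos.le
      have hAB : (∑' x : {x : K // x ∈ J i ∧ x ≠ 0}, f (‖em K x.1‖ ^ 2 / N / T)) =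
          (∑' x : {x : K // x ∈ J i}, f (b * ‖(em K x.1 - 0) / (R : ℂ)‖ ^ 2)) - f 0 := by
        rw [hA, hB, ← Finset.add_sum_erase S (fun x => f (‖em K x‖ ^ 2 / N / T)) h0S]
        simp
      rw [hAB]
      have hmain : 2 * R ^ 2 / (sd K * N) * (Real.pi / b * ∫ u in Set.Ioi (0 : ℝ), f u) =
          2 * Real.pi * T / sd K * ∫ u in Set.Ioi (0 : ℝ), f u := by
        rw [hR2]
        field_simp
      rw [hmain] at hl
      calc |(∑' x : {x : K // x ∈ J i}, f (b * ‖(em K x.1 - 0) / (R : ℂ)‖ ^ 2)) - f 0 -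
            (2 * Real.pi * T / sd K * (∫ u in Set.Ioi (0 : ℝ), f u) - f 0)|
          = |(∑' x : {x : K // x ∈ J i}, f (b * ‖(em K x.1 - 0) / (R : ℂ)‖ ^ 2)) -
            2 * Real.pi * T / sd K * ∫ u in Set.Ioi (0 : ℝ), f u| := by
              congr 1; ring
        _ ≤ C2 * (C1 * M) * (b ^ e * T ^ e) := hl
        _ = _ := by ring
    -- sum over the classes
    have hcard : (Fintype.card (ClassGroup (𝓞 K)) : ℝ) = hc K := rfl
    have hrw : (wu K)⁻¹ * ∑ i, ∑' x : {x : K // x ∈ J i ∧ x ≠ 0},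
          f (‖em K x.1‖ ^ 2 / ((FractionalIdeal.absNorm (J i) : ℚ) : ℝ) / T) -
        rh K * T * (∫ u in Set.Ioi (0 : ℝ), f u) + hc K / wu K * f 0 =
        (wu K)⁻¹ * ∑ i, ((∑' x : {x : K // x ∈ J i ∧ x ≠ 0},
          f (‖em K x.1‖ ^ 2 / ((FractionalIdeal.absNorm (J i) : ℚ) : ℝ) / T)) -
          (2 * Real.pi * T / sd K * (∫ u in Set.Ioi (0 : ℝ), f u) - f 0)) := by
      rw [Finset.sum_sub_distrib, Finset.sum_const, Finset.card_univ, nsmul_eq_mul, hcard]
      unfold rh
      generalize (∑ i, ∑' x : {x : K // x ∈ J i ∧ x ≠ 0},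
          f (‖em K x.1‖ ^ 2 / ((FractionalIdeal.absNorm (J i) : ℚ) : ℝ) / T)) = Y
      generalize (∫ u in Set.Ioi (0 : ℝ), f u) = I
      field_simp
      ring
    rw [hrw, abs_mul, abs_of_pos (inv_pos.2 hwu)]
    have h13 : |∑ i, ((∑' x : {x : K // x ∈ J i ∧ x ≠ 0},
          f (‖em K x.1‖ ^ 2 / ((FractionalIdeal.absNorm (J i) : ℚ) : ℝ) / T)) -
          (2 * Real.pi * T / sd K * (∫ u in Set.Ioi (0 : ℝ), f u) - f 0))| ≤
        hc K * (C2 * C1 * b ^ e * M * T ^ e) := by
      refine (Finset.abs_sum_le_sum_abs _ _).trans ?_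
      refine (Finset.sum_le_sum fun i _ => hcls i).trans ?_
      rw [Finset.sum_const, Finset.card_univ, nsmul_eq_mul, hcard]
    calc (wu K)⁻¹ * |∑ i, ((∑' x : {x : K // x ∈ J i ∧ x ≠ 0},
          f (‖em K x.1‖ ^ 2 / ((FractionalIdeal.absNorm (J i) : ℚ) : ℝ) / T)) -
          (2 * Real.pi * T / sd K * (∫ u in Set.Ioi (0 : ℝ), f u) - f 0))|
        ≤ (wu K)⁻¹ * (hc K * (C2 * C1 * b ^ e * M * T ^ e)) :=
          mul_le_mul_of_nonneg_left h13 (inv_pos.2 hwu).le
      _ = hc K / wu K * (C2 * C1 * b ^ e) * M * T ^ e := by ring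
      _ ≤ _ := by
          have h14 : 0 ≤ (rh K + hc K / wu K) * ((1 / b) ^ e)⁻¹ * M * T ^ e := by positivity
          nlinarith [h14]

end

end Pool.Agent.H95.HH
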