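import Pool.Agent.H33.HH.TD
import Pool.Agent.H37.CV.All

/-! Row REA of hha_modules (MP_347b49_nt): the real quadratic fields are negligible. -/

set_option autoImplicit false

open NumberField Complex Filter Topology MeasureTheory
open scoped ContDiff nonZeroDivisors

namespace Pool.Agent.H95.HH

open Pool.Agent.H33.HH Pool.Agent.H28.RC Pool.Agent.H37.CV

noncomputable section

theorem exists_unit (K : Type) [Field K] [NumberField K] (h2 : Module.finrank ℚ K = 2)
    (hd : 0 < discr K) : InfinitePlace.nrRealPlaces K = 2 ∧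
    ∃ η : (𝓞 K)ˣ, ∀ i : ℕ, 0 < i → η ^ i ≠ 1 := by
  have h3 := InfinitePlace.card_add_two_mul_card_eq_rank K
  have h4 := sign_discr K
  have h5 : (discr K).sign = 1 := Int.sign_eq_one_of_pos hd
  rw [h5] at h4
  have h6 : InfinitePlace.nrComplexPlaces K = 0 := by
    have h7 : InfinitePlace.nrComplexPlaces K = 0 ∨ InfinitePlace.nrComplexPlaces K = 1 := by omega
    rcases h7 with h7 | h7
    · exact h7
    · rw [h7] at h4
      norm_num at h4
  have h7 : InfinitePlace.nrRealPlaces K = 2 := by omega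
  refine ⟨h7, ?_⟩
  have hr : 0 < Units.rank K := by
    unfold Units.rank
    rw [InfinitePlace.card_eq_nrRealPlaces_add_nrComplexPlaces]
    omega
  refine ⟨Units.fundSystem K ⟨0, hr⟩, fun i hi h => ?_⟩
  obtain ⟨p, -, hp⟩ := Units.exist_unique_eq_mul_prod K (1 : (𝓞 K)ˣ)
  have h8 := hp (1, fun _ => 0) (by simp)
  have h9 := hp (1, Pi.single ⟨0, hr⟩ (i : ℤ)) (by
    have h10 : ∏ j, Units.fundSystem K j ^ ((Pi.single ⟨0, hr⟩ (i : ℤ) : Fin (Units.rank K) → ℤ) j) =
        Units.fundSystem K ⟨0, hr⟩ ^ (i : ℤ) := by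
      rw [Finset.prod_eq_single ⟨0, hr⟩]
      · rw [Pi.single_eq_same]
      · intro j _ hj
        rw [Pi.single_eq_of_ne hj, zpow_zero]
      · intro h11
        exact absurd (Finset.mem_univ _) h11
    simp only [OneMemClass.coe_one, one_mul]
    rw [h10, zpow_natCast, h])
  have h10 := h8.trans h9.symm
  have h11 := congrFun (congrArg Prod.snd h10) ⟨0, hr⟩
  simp only [Pi.single_eq_same] at h11
  omega

theorem norm_bound (K : Type) [Field K] [NumberField K] (h2 : Module.finrank ℚ K = 2)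
    (η : (𝓞 K)ˣ) (hη : ∀ i : ℕ, 0 < i → η ^ i ≠ 1) : ∃ M : ℝ, 1 ≤ M ∧ ∀ (f : Ideal (𝓞 K)) (i : ℕ),
    0 < i → ((η ^ i : (𝓞 K)ˣ) : 𝓞 K) - 1 ∈ f → nm f ≤ (2 * M ^ i) ^ 2 := by
  classical
  obtain ⟨M, hM1, hM⟩ : ∃ M : ℝ, 1 ≤ M ∧ ∀ w : InfinitePlace K, w ((η : 𝓞 K) : K) ≤ M := by
    refine ⟨1 + ∑ w : InfinitePlace K, w ((η : 𝓞 K) : K), ?_, fun w => ?_⟩
    · have : 0 ≤ ∑ w : InfinitePlace K, w ((η : 𝓞 K) : K) :=
        Finset.sum_nonneg fun w _ => apply_nonneg w _
      linarith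
    · have : w ((η : 𝓞 K) : K) ≤ ∑ w : InfinitePlace K, w ((η : 𝓞 K) : K) :=
        Finset.single_le_sum (f := fun w : InfinitePlace K => w ((η : 𝓞 K) : K))
          (fun w _ => apply_nonneg w _) (Finset.mem_univ w)
      linarith
  refine ⟨M, hM1, fun f i hi hf => ?_⟩
  set y : 𝓞 K := ((η ^ i : (𝓞 K)ˣ) : 𝓞 K) - 1 with hy
  have hy0 : y ≠ 0 := by
    intro h
    apply hη i hi
    apply Units.ext
    rw [hy, sub_eq_zero] at h
    rw [h, Units.val_one]
  have h3 : Ideal.absNorm f ≤ Ideal.absNorm (Ideal.span {y}) := by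
    refine Nat.le_of_dvd ?_ (Ideal.absNorm_dvd_absNorm_of_le
      ((Ideal.span_singleton_le_iff_mem _).2 hf))
    rw [Nat.pos_iff_ne_zero, Ne, Ideal.absNorm_eq_zero_iff, Ideal.span_singleton_eq_bot]
    exact hy0
  have h4 : ((Ideal.absNorm (Ideal.span {y}) : ℕ) : ℝ) = ∏ w : InfinitePlace K, w (y : K) ^ w.mult := by
    rw [InfinitePlace.prod_eq_abs_norm, Ideal.absNorm_span_singleton]
    have h5 : Algebra.norm ℚ (y : K) = ((Algebra.norm ℤ y : ℤ) : ℚ) := (Algebra.coe_norm_int y).symm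
    rw [h5]
    push_cast
    rw [Nat.cast_natAbs]
    push_cast
    rfl
  have h5 : ∀ w : InfinitePlace K, w (y : K) ≤ 2 * M ^ i := by
    intro w
    have h6 : (y : K) = ((η : 𝓞 K) : K) ^ i - 1 := by
      rw [hy]
      push_cast
      rfl
    rw [h6]
    have h7 : w (((η : 𝓞 K) : K) ^ i - 1) ≤ w (((η : 𝓞 K) : K) ^ i) + w 1 := by
      rw [← InfinitePlace.norm_embedding_eq, ← InfinitePlace.norm_embedding_eq,
        ← InfinitePlace.norm_embedding_eq, map_sub]
      exact norm_sub_le _ _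
    rw [map_pow, map_one] at h7
    have h8 : w ((η : 𝓞 K) : K) ^ i ≤ M ^ i := pow_le_pow_left₀ (apply_nonneg w _) (hM w) i
    have h9 : (1 : ℝ) ≤ M ^ i := one_le_pow₀ hM1
    linarith
  have h6 : ∏ w : InfinitePlace K, w (y : K) ^ w.mult ≤ (2 * M ^ i) ^ 2 := by
    calc ∏ w : InfinitePlace K, w (y : K) ^ w.mult
        ≤ ∏ w : InfinitePlace K, (2 * M ^ i) ^ w.mult :=
          Finset.prod_le_prod (fun w _ => pow_nonneg (apply_nonneg w _) _)
            fun w _ => pow_le_pow_left₀ (apply_nonneg w _) (h5 w) _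
      _ = (2 * M ^ i) ^ 2 := by
          rw [Finset.prod_pow_eq_pow_sum, InfinitePlace.sum_mult_eq, h2]
  calc nm f = (Ideal.absNorm f : ℝ) := rfl
    _ ≤ (Ideal.absNorm (Ideal.span {y}) : ℝ) := by exact_mod_cast h3
    _ = _ := h4
    _ ≤ _ := h6

theorem pf_REA (h1 : T_PRB) : T_REA := by
  classical
  intro K _ _ h2 hd ε hε
  obtain ⟨hreal, η, hη⟩ := exists_unit K h2 hd
  obtain ⟨M, hM1, hM⟩ := norm_bound K h2 η hη
  obtain ⟨-, C, hC⟩ := a_DV K
  set h : ℝ := hc K with hh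
  have hh0 : 0 ≤ h := Nat.cast_nonneg _
  set C' : ℝ := max C 0 with hC'
  have hC'0 : 0 ≤ C' := le_max_right _ _
  -- the number of the characters of one conductor
  have hP1 : ∀ f : Ideal (𝓞 K), f ≠ ⊥ → (Pr K f).Finite ∧ ((Pr K f).ncard : ℝ) ≤ 4 * h * nm f := by
    intro f hf
    obtain ⟨h3, h4⟩ := h1 K f η 1 hf le_rfl (fun i hi hi1 => by omega)
    refine ⟨h3, ?_⟩
    rw [hreal] at h4
    have h5 : ((1 * (Pr K f).ncard : ℕ) : ℝ) ≤ ((2 ^ 2 * classNumber K * Ideal.absNorm f : ℕ) : ℝ) := by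
      exact_mod_cast h4
    push_cast at h5
    calc ((Pr K f).ncard : ℝ) = 1 * (Pr K f).ncard := by ring
      _ ≤ 4 * (classNumber K : ℝ) * Ideal.absNorm f := by norm_num at h5 ⊢; linarith
      _ = 4 * h * nm f := by
          rw [hh]
          unfold hc nm
          ring
  obtain ⟨J, hJ⟩ := exists_nat_gt (8 * h * C' / ε)
  have hJ0 : (0 : ℝ) < J := by
    have : 0 ≤ 8 * h * C' / ε := by positivity
    linarith
  have hJ1 : 1 ≤ J := by exact_mod_cast hJ0
  set B : ℝ := (2 * M ^ J) ^ 2 with hB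
  have hMJ : (1 : ℝ) ≤ M ^ J := one_le_pow₀ hM1
  have hB1 : 1 ≤ B := by
    rw [hB]
    nlinarith
  have hP2 : ∀ f : Ideal (𝓞 K), f ≠ ⊥ → B < nm f → (J : ℝ) * ((Pr K f).ncard : ℝ) ≤ 4 * h * nm f := by
    intro f hf hBf
    obtain ⟨h3, h4⟩ := h1 K f η J hf hJ1 (fun i hi hiJ hmem => by
      have h5 := hM f i hi hmem
      have h6 : M ^ i ≤ M ^ J := pow_le_pow_right₀ hM1 hiJ.le
      have h7 : (0 : ℝ) ≤ M ^ i := by positivity
      have h8 : (2 * M ^ i) ^ 2 ≤ B := by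
        rw [hB]
        exact pow_le_pow_left₀ (by positivity) (by linarith) 2
      linarith)
    rw [hreal] at h4
    have h5 : ((J * (Pr K f).ncard : ℕ) : ℝ) ≤ ((2 ^ 2 * classNumber K * Ideal.absNorm f : ℕ) : ℝ) := by
      exact_mod_cast h4
    push_cast at h5
    calc (J : ℝ) * ((Pr K f).ncard : ℝ) ≤ 4 * (classNumber K : ℝ) * Ideal.absNorm f := by
          norm_num at h5 ⊢; linarith
      _ = 4 * h * nm f := by
          rw [hh]
          unfold hc nm
          ring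
  -- the ideals
  have hfin : ∀ x : ℝ, {I : Ideal (𝓞 K) | I ≠ ⊥ ∧ nm I ≤ x}.Finite := by
    intro x
    refine (Ideal.finite_setOfPred_absNorm_le ⌊x⌋₊).subset fun I hI => ?_
    exact Nat.le_floor hI.2
  have hnm : ∀ I : Ideal (𝓞 K), 0 ≤ nm I := fun I => Nat.cast_nonneg _
  have hcard : ∀ (x : ℝ) (X : Finset (Ideal (𝓞 K))), 1 ≤ x → (∀ I ∈ X, I ≠ ⊥ ∧ nm I ≤ x) →
      (X.card : ℝ) ≤ C' * x := by
    intro x X hx hX
    refine (hC x X hx hX).1.trans ?_
    exact mul_le_mul_of_nonneg_right (le_max_left _ _) (by linarith)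
  refine ⟨max 1 (2 * (C' * B * (4 * h * B)) / ε), le_max_left _ _, fun x hx => ?_⟩
  have hx1 : 1 ≤ x := (le_max_left _ _).trans hx
  have hx2 : 2 * (C' * B * (4 * h * B)) / ε ≤ x := (le_max_right _ _).trans hx
  set F : Finset (Ideal (𝓞 K)) := (hfin x).toFinset with hF
  have hmF : ∀ I, I ∈ F ↔ I ≠ ⊥ ∧ nm I ≤ x := fun I => by
    rw [hF, Set.Finite.mem_toFinset]; rfl
  have hAl : Al K x = ⋃ f ∈ F, Pr K f := by
    ext χ
    simp only [Set.mem_iUnion, exists_prop]
    constructor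
    · intro hχ
      exact ⟨χ.f, (hmF _).2 ⟨χ.f_ne, hχ⟩, rfl⟩
    · rintro ⟨f, hf, hχ⟩
      have h3 : χ.f = f := hχ
      show nm χ.f ≤ x
      rw [h3]
      exact ((hmF f).1 hf).2
  constructor
  · rw [hAl]
    exact F.finite_toSet.biUnion fun f hf => (hP1 f ((hmF f).1 hf).1).1
  have h3 : ((Al K x).ncard : ℝ) ≤ ∑ f ∈ F, ((Pr K f).ncard : ℝ) := by
    rw [hAl]
    exact_mod_cast Finset.set_ncard_biUnion_le F _
  refine h3.trans ?_
  rw [← Finset.sum_filter_add_sum_filter_not F (fun f => nm f ≤ B)]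
  have hS1 : ∑ f ∈ F.filter (fun f => nm f ≤ B), ((Pr K f).ncard : ℝ) ≤ C' * B * (4 * h * B) := by
    calc ∑ f ∈ F.filter (fun f => nm f ≤ B), ((Pr K f).ncard : ℝ)
        ≤ ∑ f ∈ F.filter (fun f => nm f ≤ B), 4 * h * B := by
          refine Finset.sum_le_sum fun f hf => ?_
          rw [Finset.mem_filter, hmF] at hf
          refine (hP1 f hf.1.1).2.trans ?_
          exact mul_le_mul_of_nonneg_left hf.2 (by positivity)
      _ = ((F.filter (fun f => nm f ≤ B)).card : ℝ) * (4 * h * B) := by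
          rw [Finset.sum_const, nsmul_eq_mul]
      _ ≤ C' * B * (4 * h * B) := by
          refine mul_le_mul_of_nonneg_right ?_ (by positivity)
          refine hcard B _ hB1 fun I hI => ?_
          rw [Finset.mem_filter, hmF] at hI
          exact ⟨hI.1.1, hI.2⟩
  have hS2 : ∑ f ∈ F.filter (fun f => ¬ nm f ≤ B), ((Pr K f).ncard : ℝ) ≤
      C' * x * (4 * h * x / J) := by
    calc ∑ f ∈ F.filter (fun f => ¬ nm f ≤ B), ((Pr K f).ncard : ℝ)
        ≤ ∑ f ∈ F.filter (fun f => ¬ nm f ≤ B), 4 * h * x / J := by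
          refine Finset.sum_le_sum fun f hf => ?_
          rw [Finset.mem_filter, hmF] at hf
          rw [le_div_iff₀ hJ0, mul_comm]
          refine (hP2 f hf.1.1 (not_le.1 hf.2)).trans ?_
          exact mul_le_mul_of_nonneg_left hf.1.2 (by positivity)
      _ = ((F.filter (fun f => ¬ nm f ≤ B)).card : ℝ) * (4 * h * x / J) := by
          rw [Finset.sum_const, nsmul_eq_mul]
      _ ≤ C' * x * (4 * h * x / J) := by
          refine mul_le_mul_of_nonneg_right ?_ (by positivity)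
          refine hcard x _ hx1 fun I hI => ?_
          rw [Finset.mem_filter, hmF] at hI
          exact hI.1
  have hT1 : C' * B * (4 * h * B) ≤ ε / 2 * x ^ 2 := by
    rw [div_le_iff₀ hε] at hx2
    have : x ≤ x ^ 2 := by nlinarith
    nlinarith
  have hT2 : C' * x * (4 * h * x / J) ≤ ε / 2 * x ^ 2 := by
    have h4 : 4 * h * C' / J ≤ ε / 2 := by
      rw [div_le_iff₀ hJ0]
      rw [div_lt_iff₀ hε] at hJ
      nlinarith
    calc C' * x * (4 * h * x / J) = 4 * h * C' / J * x ^ 2 := by ring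
      _ ≤ ε / 2 * x ^ 2 := mul_le_mul_of_nonneg_right h4 (sq_nonneg x)
  linarith

end

end Pool.Agent.H95.HH
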